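import Pool.Agent.Helper66.BilK

set_option autoImplicit false

open Set

namespace Pool.Agent.Results.MP_c02c19_gt.AllPolygons

open Pool.Agent.Helper66.Bil

/-- Let `T` be a polygon.

(a) If all pairs of interior points are secure, then:

(i) every nonempty open set of pairs of interior points contains a nonempty open set `U` with a
finite set `G` of unit complex numbers such that every billiard orbit from `x` (in the direction
`u`) to `y` (in the direction `v`) with `(x, y)` in `U` has `u / v` in `G` or `u v` in `G`;

(ii) for every infinite billiard trajectory, every nonempty open subset of the interior contains a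
nonempty open set through which the trajectory runs in only finitely many directions;

(iii) every nonempty open set of the phase space over the interior contains a nonempty open set `O`
such that every billiard orbit from a state in `O` to a state in `O` ends in the direction in which
it started.

(b) If the billiard flow is topologically transitive on an open set `O` of the phase space over the
interior of the polygon, then the secure pairs `(x, y)`, `x` and `y` in the projection of `O`, form a
meagre set. -/
theorem result (T : Table) :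
    ((∀ x ∈ interior T.P, ∀ y ∈ interior T.P, SecurePair T x y) →
      (∀ V : Set (ℂ × ℂ), IsOpen V → V.Nonempty → V ⊆ interior T.P ×ˢ interior T.P →
        ∃ U : Set (ℂ × ℂ), U ⊆ V ∧ IsOpen U ∧ U.Nonempty ∧ ∃ G : Finset Circle,
          ∀ (x : ℂ) (u : Circle) (y : ℂ) (v : Circle) (S : Set ℂ), Orbit T x u y v S →
            (x, y) ∈ U → u * v⁻¹ ∈ G ∨ u * v ∈ G) ∧
      (∀ γ : Trajectory T, ∀ W : Set ℂ, IsOpen W → W.Nonempty → W ⊆ interior T.P →
        ∃ X : Set ℂ, X ⊆ W ∧ IsOpen X ∧ X.Nonempty ∧
          {u : Circle | ∃ x ∈ X, (x, u) ∈ γ.states}.Finite) ∧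
      (∀ V : Set (ℂ × Circle), IsOpen V → V.Nonempty → V ⊆ interior T.P ×ˢ univ →
        ∃ O : Set (ℂ × Circle), O ⊆ V ∧ IsOpen O ∧ O.Nonempty ∧
          ∀ (x : ℂ) (u : Circle) (y : ℂ) (v : Circle) (S : Set ℂ), Orbit T x u y v S →
            (x, u) ∈ O → (y, v) ∈ O → v = u)) ∧
    (∀ O : Set (ℂ × Circle), IsOpen O → O ⊆ interior T.P ×ˢ univ → TransitiveOn T O →
      IsMeagre {p : ℂ × ℂ | (∃ u, (p.1, u) ∈ O) ∧ (∃ v, (p.2, v) ∈ O) ∧ SecurePair T p.1 p.2}) :=
  ⟨fun hsec => ⟨fun _ hV hne hVP => finite_types T hsec hV hne hVP,
    fun γ _ hW hne hWP => traj_dirs T hsec γ hW hne hWP,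
    fun _ hV hne hVP => locally_parallel T hsec hV hne hVP⟩,
    fun _ hO hOP hT => meagre T hO (fun _ hp => (hOP hp).1) hT⟩

end Pool.Agent.Results.MP_c02c19_gt.AllPolygons
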