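import Pool.Agent.Helper66.BilY

set_option autoImplicit false

open Set

namespace Pool.Agent.Results.MP_c02c19_gt.Parallelograms

open Pool.Agent.Helper66.Bil

/-- Let `w = c + i s` with `0 < s < c` (so that the angle at `0` is less than 45 degrees) and
`c² - s² < c (c² + s²)` (this holds whenever `|w| ≥ 1`). Suppose that `c / (c² + s²)` is irrational
and that `c - 1` is not a natural multiple of `2 s² / (c² + s²)`. Then the parallelogram with the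
vertices `0`, `1`, `1 + w`, `w` is insecure; more precisely there is a point `ξ` of the side
`[0, 1]` such that the points `ξ - κ` and `ξ + κ` of this side form an insecure pair for all small
`κ > 0`. -/
theorem result (c s : ℝ) (hs : 0 < s) (hsc : s < c) (h : c ^ 2 - s ^ 2 < c * (c ^ 2 + s ^ 2))
    (hirr : Irrational (c / (c ^ 2 + s ^ 2)))
    (hgen : ∀ k : ℕ, c - 1 ≠ k * (2 * s ^ 2 / (c ^ 2 + s ^ 2))) :
    ¬ Secure (para c s hs) ∧
    (para c s hs).P = {z : ℂ | ∃ σ τ : ℝ, 0 ≤ σ ∧ σ ≤ 1 ∧ 0 ≤ τ ∧ τ ≤ 1 ∧ z = σ + τ * (c + s * Complex.I)} ∧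
    ∃ ξ δ : ℝ, 0 < δ ∧ 0 < ξ - δ ∧ ξ + δ < 1 ∧ ∀ κ, 0 < κ → κ < δ →
      ¬ SecurePair (para c s hs) ((ξ - κ : ℝ) : ℂ) ((ξ + κ : ℝ) : ℂ) := by
  obtain ⟨ξ, δ, hδ, h1, h2, h3⟩ := para_insecure' hs hsc h hirr hgen
  have hP : (para c s hs).P =
      {z : ℂ | ∃ σ τ : ℝ, 0 ≤ σ ∧ σ ≤ 1 ∧ 0 ≤ τ ∧ τ ≤ 1 ∧ z = σ + τ * (c + s * Complex.I)} := by
    ext z
    constructor
    · rintro ⟨p, ⟨⟨p1, p2⟩, p3, p4⟩, rfl⟩
      refine ⟨p.1, p.2, p1, p2, p3, p4, ?_⟩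
      change (p.1 : ℂ) + (p.2 : ℂ) * pw c s = _
      congr 2
      apply Complex.ext <;> simp [pw]
    · rintro ⟨σ, τ, p1, p2, p3, p4, rfl⟩
      refine ⟨(σ, τ), ⟨⟨p1, p2⟩, p3, p4⟩, ?_⟩
      change (σ : ℂ) + (τ : ℂ) * pw c s = _
      congr 2
      apply Complex.ext <;> simp [pw]
  have hA : ∀ X : ℝ, pA X = (X : ℂ) := fun X => by
    apply Complex.ext <;> simp [pA]
  refine ⟨?_, hP, ξ, δ, hδ, h1, h2, fun κ hκ hκδ => ?_⟩
  · intro hsec
    have hmem : ∀ X : ℝ, 0 ≤ X → X ≤ 1 → pA X ∈ (para c s hs).P := by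
      intro X hX0 hX1
      rw [hP, hA]
      exact ⟨X, 0, hX0, hX1, le_rfl, zero_le_one, by simp⟩
    exact h3 (δ / 2) (by linarith) (by linarith)
      (hsec _ (hmem _ (by linarith) (by linarith)) _ (hmem _ (by linarith) (by linarith)))
  · rw [← hA, ← hA]
    exact h3 κ hκ hκδ

end Pool.Agent.Results.MP_c02c19_gt.Parallelograms
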